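import Pool.Agent.N70.PP.Stm

/-!
Project PP (helper70), part GRPA (helper186): a subgroup of a twofold symmetric fibre power.
-/

set_option autoImplicit false

namespace Pool.Agent.N186.PP.GrpA

open Pool.Agent.H391R2 Pool.Agent.H391R2.T4

theorem fix_inv {n : ℕ} {π : Equiv.Perm (Fin n)} {i : Fin n} (h : π i = i) : π⁻¹ i = i := by
  rw [Equiv.Perm.inv_eq_iff_eq]
  exact h.symm

/-- the left component of a product at a fixed index -/
theorem left_mul {G : Type} [Group G] {n : ℕ} (x y : Wr G n) {i : Fin n} (h : x.right i = i) :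
    (x * y).left i = x.left i * y.left i := by
  rw [wr_mul_left, fix_inv h]

section

variable {H B : Type} [Group H] [Group B] (a : B →* H) (m n : ℕ) (j₀ : Fin m) (i₀ : Fin n)

/-- the subgroup -/
def PS : Subgroup (SymEP (symProj a m) n) where
  carrier := {z | z.1.1.right i₀ = i₀ ∧ (z.1.1.left i₀).1.1.right j₀ = j₀}
  one_mem' := ⟨rfl, rfl⟩
  mul_mem' := by
    rintro x y ⟨hx1, hx2⟩ ⟨hy1, hy2⟩
    refine ⟨?_, ?_⟩
    · change x.1.1.right (y.1.1.right i₀) = i₀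
      rw [hy1, hx1]
    · change ((x.1.1 * y.1.1).left i₀).1.1.right j₀ = j₀
      rw [left_mul _ _ hx1]
      change (x.1.1.left i₀).1.1.right ((y.1.1.left i₀).1.1.right j₀) = j₀
      rw [hy2, hx2]
  inv_mem' := by
    rintro x ⟨hx1, hx2⟩
    refine ⟨fix_inv hx1, ?_⟩
    change ((x.1.1⁻¹).left i₀).1.1.right j₀ = j₀
    rw [wr_inv_left, hx1]
    exact fix_inv hx2

/-- the homomorphism -/
def be : PS a m n j₀ i₀ →* B where
  toFun z := (z.1.1.1.left i₀).1.1.left j₀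
  map_one' := rfl
  map_mul' x y := by
    change ((x.1.1.1 * y.1.1.1).left i₀).1.1.left j₀ = _
    rw [left_mul _ _ x.2.1]
    change ((x.1.1.1.left i₀).1.1 * (y.1.1.1.left i₀).1.1).left j₀ = _
    rw [left_mul _ _ x.2.2]

theorem be_surj : Function.Surjective (be a m n j₀ i₀) := by
  intro b
  let w : SymEP a m := ⟨(⟨fun _ => b, 1⟩, a b), fun _ => rfl⟩
  let z : SymEP (symProj a m) n := ⟨(⟨fun _ => w, 1⟩, a b), fun _ => rfl⟩
  exact ⟨⟨z, rfl, rfl⟩, rfl⟩

theorem be_eq (p : PS a m n j₀ i₀) : a (be a m n j₀ i₀ p) = symProj (symProj a m) n p := by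
  have h1 : symProj a m (p.1.1.1.left i₀) = p.1.1.2 := p.1.2 i₀
  have h2 : a ((p.1.1.1.left i₀).1.1.left j₀) = (p.1.1.1.left i₀).1.2 := (p.1.1.1.left i₀).2 j₀
  exact h2.trans h1

end

theorem t_grpA : Pool.Agent.N70.PP.St_grpA := by
  intro H B _ _ a _ m n hm hn
  exact ⟨PS a m n ⟨0, hm⟩ ⟨0, hn⟩, be a m n ⟨0, hm⟩ ⟨0, hn⟩, be_surj a m n _ _, be_eq a m n _ _⟩

end Pool.Agent.N186.PP.GrpA
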